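import Pool.Agent.NBK.Final
import Pool.Agent.EUN.St

/-!
# `S_THE`
-/

namespace NBK

theorem s_the : EUN.S_THE := by
  intro Ω _ _ _ halg m x hm h
  have := halg
  obtain ⟨θ, θ', h1, h2, h3, h4, h5⟩ := NBK.the hm x (by
    intro p hp hpm
    obtain ⟨y, ⟨hpp, hxy, -, -⟩, hAlt⟩ := h p hp hpm
    refine ⟨y, hpp, hxy, ?_⟩
    rcases hAlt with hE | ⟨h2, h4, hy2, hi⟩
    · left
      intro l M hl
      have hE' := hE l M (by
        intro hp2 i hi
        rcases hl with hl | hl
        · exact absurd hp2 hl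
        · subst hp2
          exact hl i hi)
      exact hE'
    · right
      refine ⟨h2, fun z => ?_, ?_, h4⟩
      · have h6 : (y ^ 2) z = z := by rw [hy2]; rfl
        rwa [pow_two, AlgEquiv.mul_apply] at h6
      · obtain ⟨i, hi'⟩ := IsAlgClosed.exists_pow_nat_eq (-1 : Ω) (n := 2) (by norm_num)
        exact ⟨i, hi', hi i hi'⟩)
  exact ⟨θ, θ', h1, h2, h3, h4, h5⟩

end NBK
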