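import Pool.Agent.NBK.Main

/-!
# Dual pairs, composite degree
-/

open Finset

namespace NBK

variable {Ω : Type*} [Field Ω] [CharZero Ω]

theorem good_gen [IsAlgClosed Ω] [Algebra.IsAlgebraic ℚ Ω] {m : ℕ} (hm : 0 < m) {x : Ω ≃ₐ[ℚ] Ω}
    (h : ∀ p : ℕ, p.Prime → p ∣ m → PData p m x) {C : Type*} [CommGroup C] {g : C}
    (hg : g ^ m = 1) : Good (unitSub Ω C) (act C x) (gu Ω g) := by
  classical
  set B : Subgroup C := (goodSub (unitSub Ω C) (act C x)).comap (gu Ω) with hB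
  have key : ∀ t : ℕ, g ^ t ∈ B ↔ orderOf (QuotientGroup.mk g : C ⧸ B) ∣ t := by
    intro t
    rw [orderOf_dvd_iff_pow_eq_one, ← QuotientGroup.mk_pow, QuotientGroup.eq_one_iff]
  set d := orderOf (QuotientGroup.mk g : C ⧸ B) with hd
  have hdm : d ∣ m := (key m).1 (by rw [hg]; exact B.one_mem)
  have h1 : d = 1 := by
    by_contra hne
    obtain ⟨p, hp, hpd⟩ := Nat.exists_prime_and_dvd hne
    have hpm : p ∣ m := hpd.trans hdm
    have h2 : g ^ (m / p ^ (m.factorization p)) ∈ B := by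
      refine good_prime hp (h p hp hpm) (k := m.factorization p) ?_ (Nat.ordProj_dvd m p)
      rw [← pow_mul, Nat.div_mul_cancel (Nat.ordProj_dvd m p), hg]
    exact Nat.not_dvd_ordCompl hp hm.ne' (hpd.trans ((key _).1 h2))
  have h2 : g ^ 1 ∈ B := (key 1).2 (by rw [h1])
  rw [pow_one] at h2
  exact h2

/-- The main theorem of this folder. -/
theorem the [IsAlgClosed Ω] [Algebra.IsAlgebraic ℚ Ω] {m : ℕ} (hm : 0 < m) (x : Ω ≃ₐ[ℚ] Ω)
    (h : ∀ p : ℕ, p.Prime → p ∣ m → PData p m x) :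
    ∃ θ θ' : Ω, IsIntegral ℤ θ ∧ IsIntegral ℤ θ' ∧ (x ^ m) θ = θ ∧ (x ^ m) θ' = θ' ∧
      ∀ k : ℕ, ∑ i ∈ range m, (x ^ i) (θ * (x ^ k) θ') = if m ∣ k then 1 else 0 := by
  classical
  have : NeZero m := ⟨hm.ne'⟩
  let C := Multiplicative (ZMod m)
  let g : C := Multiplicative.ofAdd 1
  have hgord : orderOf g = m := by
    show orderOf (Multiplicative.ofAdd (1 : ZMod m)) = m
    rw [orderOf_ofAdd_eq_addOrderOf, ZMod.addOrderOf_one]
  have hgm : g ^ m = 1 := orderOf_dvd_iff_pow_eq_one.1 (dvd_of_eq hgord)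
  obtain ⟨U, hU, hxU⟩ := good_gen hm h hgm
  rw [mem_unitSub] at hU
  set a : C → Ω := fun c => (U : MonoidAlgebra Ω C).coeff c with ha
  set b : C → Ω := fun c => ((U⁻¹ : (MonoidAlgebra Ω C)ˣ) : MonoidAlgebra Ω C).coeff c with hb
  have hxa : ∀ c, x (a c) = a (g⁻¹ * c) := by
    intro c
    have h1 : x (a c) = ((act C x U : (MonoidAlgebra Ω C)ˣ) : MonoidAlgebra Ω C).coeff c :=
      (act_coeff x U c).symm
    rw [h1, hxU, Units.val_mul, gu_coe, MonoidAlgebra.coeff_single_mul_apply, one_mul]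
  have hxb : ∀ c, x (b c) = b (g * c) := by
    intro c
    have h1 : x (b c) = ((act C x U⁻¹ : (MonoidAlgebra Ω C)ˣ) : MonoidAlgebra Ω C).coeff c :=
      (act_coeff x U⁻¹ c).symm
    rw [h1, map_inv, hxU, mul_inv, ← map_inv, Units.val_mul, gu_coe,
      MonoidAlgebra.coeff_single_mul_apply, one_mul, inv_inv]
  have hxai : ∀ (i : ℕ) (c : C), (x ^ i) (a c) = a (g⁻¹ ^ i * c) := by
    intro i
    induction i with
    | zero => intro c; simp
    | succ i ih =>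
      intro c
      rw [pow_succ, AlgEquiv.mul_apply, hxa, ih, pow_succ, mul_assoc]
  have hxbi : ∀ (i : ℕ) (c : C), (x ^ i) (b c) = b (g ^ i * c) := by
    intro i
    induction i with
    | zero => intro c; simp
    | succ i ih =>
      intro c
      rw [pow_succ, AlgEquiv.mul_apply, hxb, ih, pow_succ, mul_assoc]
  refine ⟨a 1, b 1, hU.1 1, hU.2 1, ?_, ?_, fun k => ?_⟩
  · rw [hxai, inv_pow, hgm, inv_one, one_mul]
  · rw [hxbi, hgm, one_mul]
  have h1 : ∀ i ∈ range m, (x ^ i) (a 1 * (x ^ k) (b 1)) =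
      a (g⁻¹ ^ i) * b ((g⁻¹ ^ i)⁻¹ * g ^ k) := by
    intro i _
    rw [map_mul, hxai, mul_one, ← AlgEquiv.mul_apply, ← pow_add, hxbi, mul_one, inv_pow, inv_inv,
      pow_add]
  rw [Finset.sum_congr rfl h1]
  have hgen : ∀ c : C, c ∈ Subgroup.zpowers g⁻¹ := by
    intro c
    rw [Subgroup.zpowers_inv, Subgroup.mem_zpowers_iff]
    refine ⟨(c.toAdd.val : ℤ), ?_⟩
    apply Multiplicative.toAdd.injective
    show ((c.toAdd.val : ℤ)) • (1 : ZMod m) = c.toAdd
    simp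
  have h2 : ∑ i ∈ range m, a (g⁻¹ ^ i) * b ((g⁻¹ ^ i)⁻¹ * g ^ k) =
      ∑ c : C, a c * b (c⁻¹ * g ^ k) := by
    have hord : orderOf g⁻¹ = m := by rw [orderOf_inv, hgord]
    rw [← IsCyclic.image_range_orderOf hgen, Finset.sum_image, hord]
    rw [hord]
    intro i hi j hj hij
    have hi' : i < orderOf g⁻¹ := by rw [hord]; simpa using hi
    have hj' : j < orderOf g⁻¹ := by rw [hord]; simpa using hj
    exact pow_injOn_Iio_orderOf hi' hj' hij
  rw [h2]
  have h3 : ∑ c : C, a c * b (c⁻¹ * g ^ k) =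
      ((U : MonoidAlgebra Ω C) * ((U⁻¹ : (MonoidAlgebra Ω C)ˣ) : MonoidAlgebra Ω C)).coeff
        (g ^ k) := by
    rw [MonoidAlgebra.coeff_mul_apply_left, Finsupp.sum_fintype]
    intro c
    rw [zero_mul]
  rw [h3, ← Units.val_mul, mul_inv_cancel, Units.val_one, MonoidAlgebra.one_def,
    MonoidAlgebra.coeff_single, Finsupp.single_apply]
  have h4 : (1 = g ^ k) ↔ m ∣ k := by
    rw [eq_comm, ← orderOf_dvd_iff_pow_eq_one, hgord]
  simp only [h4]

end NBK
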