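import Mathlib

/-!
# Units with a given cocycle value: formal part

`Good H x g`: there is `θ ∈ H` with `x θ = g θ`.
-/

namespace NBK

/-- There is `θ ∈ H` with `x θ = g θ`. -/
def Good {U : Type*} [CommGroup U] (H : Subgroup U) (x : MulAut U) (g : U) : Prop :=
  ∃ θ ∈ H, x θ = g * θ

variable {U : Type*} [CommGroup U] {H : Subgroup U} {x y : MulAut U} {g g' : U}

theorem Good.one : Good H x 1 := ⟨1, H.one_mem, by simp⟩

theorem Good.mul (h : Good H x g) (h' : Good H x g') : Good H x (g * g') := by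
  obtain ⟨a, ha, hxa⟩ := h
  obtain ⟨b, hb, hxb⟩ := h'
  exact ⟨a * b, H.mul_mem ha hb, by rw [map_mul, hxa, hxb, mul_mul_mul_comm]⟩

theorem Good.inv (h : Good H x g) : Good H x g⁻¹ := by
  obtain ⟨a, ha, hxa⟩ := h
  exact ⟨a⁻¹, H.inv_mem ha, by rw [map_inv, hxa, mul_inv]⟩

theorem Good.pow (h : Good H x g) (n : ℕ) : Good H x (g ^ n) := by
  induction n with
  | zero => rw [pow_zero]; exact Good.one
  | succ n ih => rw [pow_succ]; exact ih.mul h

/-- The subgroup of the good elements. -/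
def goodSub (H : Subgroup U) (x : MulAut U) : Subgroup U where
  carrier := {g | Good H x g}
  mul_mem' := fun h h' => h.mul h'
  one_mem' := Good.one
  inv_mem' := fun h => h.inv

theorem pow_mem (hH : ∀ u ∈ H, x u ∈ H) (n : ℕ) {u : U} (hu : u ∈ H) : (x ^ n) u ∈ H := by
  induction n with
  | zero => simpa using hu
  | succ n ih => rw [pow_succ', MulAut.mul_apply]; exact hH _ ih

theorem pow_fix (hg : x g = g) (n : ℕ) : (x ^ n) g = g := by
  induction n with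
  | zero => simp
  | succ n ih => rw [pow_succ', MulAut.mul_apply, ih, hg]

/-- Shift of an orbit product. -/
theorem prod_shift (θ : U) (n : ℕ) (c : ℕ) :
    (x ^ c) (∏ l ∈ Finset.range n, (x ^ (c * l)) θ) * θ =
      (∏ l ∈ Finset.range n, (x ^ (c * l)) θ) * (x ^ (c * n)) θ := by
  rw [map_prod]
  have h1 : ∀ l ∈ Finset.range n, (x ^ c) ((x ^ (c * l)) θ) = (x ^ (c * (l + 1))) θ := by
    intro l _
    rw [← MulAut.mul_apply, ← pow_add, Nat.mul_add, mul_one, add_comm]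
  rw [Finset.prod_congr rfl h1, ← Finset.prod_range_succ (fun l => (x ^ (c * l)) θ) n,
    Finset.prod_range_succ' (fun l => (x ^ (c * l)) θ) n]
  simp

/-- The norm. -/
theorem Good.norm (hH : ∀ u ∈ H, x u ∈ H) (n : ℕ) (h : Good H (x ^ n) g) :
    Good H x g := by
  obtain ⟨θ, hθ, hxθ⟩ := h
  refine ⟨∏ l ∈ Finset.range n, (x ^ (1 * l)) θ, ?_, ?_⟩
  · exact H.prod_mem fun l _ => pow_mem hH _ hθ
  · have h1 := prod_shift (x := x) θ n 1
    rw [one_mul n, hxθ, pow_one, ← mul_assoc, mul_comm _ g] at h1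
    exact mul_right_cancel h1

/-- From the `p`-part `y` of `x` to `x`. -/
theorem Good.ppart {p : ℕ} (hp : p.Prime) (hH : ∀ u ∈ H, x u ∈ H) (hg : x g = g) {k : ℕ}
    (hgk : g ^ (p ^ k) = 1) (hfin : ∀ u : U, ∃ N : ℕ, 0 < N ∧ (x ^ N) u = u)
    (hy : ∀ S : Finset U, ∃ e : ℕ, ¬ p ∣ e ∧ ∀ u ∈ S, y u = (x ^ e) u)
    (h : Good H y g) : Good H x g := by
  classical
  obtain ⟨θ, hθ, hyθ⟩ := h
  obtain ⟨N, hN, hxN⟩ := hfin θ
  obtain ⟨e, he, hye⟩ := hy ((Finset.range (N + 1)).image fun j => (x ^ j) θ)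
  obtain ⟨a, m, hpm, hNm⟩ := Nat.exists_eq_pow_mul_and_not_dvd hN.ne' p hp.ne_one
  have hm : 0 < m := Nat.pos_of_ne_zero (by rintro rfl; exact hpm (dvd_zero _))
  -- the element `θ₁`
  set θ₁ : U := ∏ l ∈ Finset.range m, (x ^ (p ^ a * l)) θ with hθ₁
  have hmem : θ₁ ∈ H := H.prod_mem fun l _ => pow_mem hH _ hθ
  have h1 : (x ^ (p ^ a)) θ₁ = θ₁ := by
    have h2 := prod_shift (x := x) θ m (p ^ a)
    rw [← hNm, hxN] at h2
    exact mul_right_cancel h2
  have h2 : y θ = (x ^ e) θ := hye θ (Finset.mem_image.2 ⟨0, by simp, by simp⟩)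
  have h3 : ∀ l ∈ Finset.range m, y ((x ^ (p ^ a * l)) θ) = g * (x ^ (p ^ a * l)) θ ∧
      y ((x ^ (p ^ a * l)) θ) = (x ^ e) ((x ^ (p ^ a * l)) θ) := by
    intro l hl
    have h4 : y ((x ^ (p ^ a * l)) θ) = (x ^ e) ((x ^ (p ^ a * l)) θ) := by
      refine hye _ (Finset.mem_image.2 ⟨p ^ a * l, ?_, rfl⟩)
      rw [Finset.mem_range] at hl ⊢
      rw [hNm]
      have : p ^ a * l ≤ p ^ a * m := Nat.mul_le_mul_left _ hl.le
      omega
    refine ⟨?_, h4⟩
    rw [h4, ← MulAut.mul_apply, ← pow_add, add_comm, pow_add, MulAut.mul_apply, ← h2, hyθ,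
      map_mul, pow_fix hg]
  have h4 : (x ^ e) θ₁ = g ^ m * θ₁ := by
    have h5 : y θ₁ = g ^ m * θ₁ := by
      rw [hθ₁, map_prod, Finset.prod_congr rfl fun l hl => (h3 l hl).1, Finset.prod_mul_distrib,
        Finset.prod_const, Finset.card_range]
    have h6 : y θ₁ = (x ^ e) θ₁ := by
      rw [hθ₁, map_prod, map_prod]
      exact Finset.prod_congr rfl fun l hl => (h3 l hl).2
    rw [← h6, h5]
  -- the inverse of `e`
  have hcop : Nat.Coprime e (p ^ (a + 1)) :=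
    Nat.Coprime.pow_right _ ((Nat.Prime.coprime_iff_not_dvd hp).2 he).symm
  obtain ⟨e', he'⟩ : ∃ e' : ℕ, e * e' ≡ 1 [MOD p ^ (a + 1)] := by
    obtain ⟨e', -, he'⟩ := Nat.exists_mul_mod_eq_one_of_coprime hcop
      (Nat.one_lt_pow (Nat.succ_ne_zero a) hp.one_lt)
    refine ⟨e', ?_⟩
    rw [Nat.ModEq, he', Nat.mod_eq_of_lt (Nat.one_lt_pow (Nat.succ_ne_zero a) hp.one_lt)]
  have hpe' : ¬ p ∣ e' := by
    intro hd
    have h5 : e * e' ≡ 1 [MOD p] := he'.of_dvd (dvd_pow_self p (Nat.succ_ne_zero a))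
    have h6 : p ∣ e * e' := hd.mul_left e
    have h7 : 1 % p = 0 := by rw [← h5, Nat.mod_eq_zero_of_dvd h6]
    rw [Nat.mod_eq_of_lt hp.one_lt] at h7
    exact one_ne_zero h7
  have h5 : ∀ n : ℕ, ((x ^ e) ^ n) θ₁ = (g ^ m) ^ n * θ₁ := by
    intro n
    induction n with
    | zero => simp
    | succ n ih =>
      rw [pow_succ', MulAut.mul_apply, ih, map_mul, map_pow, map_pow, pow_fix hg, h4,
        ← mul_assoc, ← pow_succ]
  have h6 : (x ^ (e * e')) θ₁ = x θ₁ := by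
    have h7 : ∀ n : ℕ, ((x ^ (p ^ a)) ^ n) θ₁ = θ₁ := by
      intro n
      induction n with
      | zero => simp
      | succ n ih => rw [pow_succ', MulAut.mul_apply, ih, h1]
    have h8 : e * e' ≡ 1 [MOD p ^ a] := he'.of_dvd (pow_dvd_pow p (Nat.le_succ a))
    have hee : 1 ≤ e * e' := by
      rcases Nat.eq_zero_or_pos (e * e') with h | h
      · rcases Nat.mul_eq_zero.1 h with h | h
        · exact absurd (h ▸ dvd_zero p) he
        · exact absurd (h ▸ dvd_zero p) hpe'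
      · exact h
    obtain ⟨c, hc⟩ := (Nat.modEq_iff_dvd' hee).1 h8.symm
    have h9 : e * e' = 1 + p ^ a * c := by omega
    rw [h9, pow_add, MulAut.mul_apply, pow_mul, h7, pow_one]
  have h7 : Good H x (g ^ (m * e')) := by
    refine ⟨θ₁, hmem, ?_⟩
    rw [← h6, pow_mul, h5, pow_mul]
  -- back to `g`
  have h8 : Nat.Coprime (m * e') (p ^ k) := by
    refine Nat.Coprime.pow_right _ ?_
    refine (Nat.Coprime.mul_right ?_ ?_).symm
    · exact (Nat.Prime.coprime_iff_not_dvd hp).2 hpm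
    · exact (Nat.Prime.coprime_iff_not_dvd hp).2 hpe'
  obtain ⟨t, ht⟩ : ∃ t : ℕ, m * e' * t ≡ 1 [MOD p ^ k] := by
    rcases Nat.eq_zero_or_pos k with rfl | hk
    · exact ⟨0, by rw [pow_zero]; exact Nat.modEq_one⟩
    · obtain ⟨t, -, ht⟩ := Nat.exists_mul_mod_eq_one_of_coprime h8
        (Nat.one_lt_pow hk.ne' hp.one_lt)
      refine ⟨t, ?_⟩
      rw [Nat.ModEq, ht, Nat.mod_eq_of_lt (Nat.one_lt_pow hk.ne' hp.one_lt)]
  have h9 : (g ^ (m * e')) ^ t = g := by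
    rw [← pow_mul, ← pow_mod_orderOf, show m * e' * t % orderOf g = 1 % orderOf g from
      ht.of_dvd (orderOf_dvd_of_pow_eq_one hgk), pow_mod_orderOf, pow_one]
  rw [← h9]
  exact h7.pow t

end NBK
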