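import Mathlib

/-!
# The element with given values at the characters of a cyclic group
-/

open Finset

namespace NBK

section
variable {Ω A : Type*} [Field Ω] [CharZero Ω] [CommRing A] [Algebra Ω A]

/-- `q` times the idempotent of the character `g ↦ ω ^ j`. -/
noncomputable def SJ (q : ℕ) (ω : Ω) (G : A) (j : ℕ) : A := ∑ i ∈ range q, (ω⁻¹ ^ j • G) ^ i

/-- The element with value `u ^ j` at the character `g ↦ ω ^ j`. -/
noncomputable def Th (q : ℕ) (ω : Ω) (G : A) (u : Ω) : A :=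
  (q : Ω)⁻¹ • ∑ j ∈ range q, u ^ j • SJ q ω G j

variable {q : ℕ} {ω : Ω} {G : A}

theorem geom_zero {ξ : Ω} (h1 : ξ ^ q = 1) (h : ξ ≠ 1) : ∑ i ∈ range q, ξ ^ i = 0 := by
  have h2 : (ξ - 1) * ∑ i ∈ range q, ξ ^ i = ξ ^ q - 1 := mul_geom_sum ξ q
  rw [h1, sub_self] at h2
  rcases mul_eq_zero.1 h2 with h3 | h3
  · exact absurd (sub_eq_zero.1 h3) h
  · exact h3

theorem G_mul_SJ (hω : IsPrimitiveRoot ω q) (hq : 0 < q) (hG : G ^ q = 1) (j : ℕ) :
    G * SJ q ω G j = ω ^ j • SJ q ω G j := by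
  have hω0 : ω ≠ 0 := hω.ne_zero hq.ne'
  have h1 : (ω⁻¹ ^ j • G - 1) * SJ q ω G j = (ω⁻¹ ^ j • G) ^ q - 1 := mul_geom_sum _ q
  have h2 : (ω⁻¹ ^ j • G) ^ q = 1 := by
    rw [smul_pow, hG, ← pow_mul, mul_comm j q, pow_mul, inv_pow, hω.pow_eq_one, inv_one, one_pow,
      one_smul]
  rw [h2, sub_self, sub_mul, one_mul, sub_eq_zero, smul_mul_assoc] at h1
  calc G * SJ q ω G j = ω ^ j • (ω⁻¹ ^ j • (G * SJ q ω G j)) := by
        rw [smul_smul, ← mul_pow, mul_inv_cancel₀ hω0, one_pow, one_smul]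
    _ = ω ^ j • SJ q ω G j := by rw [h1]

theorem Gpow_mul_SJ (hω : IsPrimitiveRoot ω q) (hq : 0 < q) (hG : G ^ q = 1) (j i : ℕ) :
    G ^ i * SJ q ω G j = (ω ^ j) ^ i • SJ q ω G j := by
  induction i with
  | zero => simp
  | succ i ih =>
    rw [pow_succ, mul_assoc, G_mul_SJ hω hq hG, mul_smul_comm, ih, smul_smul, pow_succ, mul_comm]

theorem SJ_mul_SJ (hω : IsPrimitiveRoot ω q) (hq : 0 < q) (hG : G ^ q = 1) {j j' : ℕ} (hj : j < q)
    (hj' : j' < q) : SJ q ω G j' * SJ q ω G j = if j' = j then (q : Ω) • SJ q ω G j else 0 := by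
  have hω0 : ω ≠ 0 := hω.ne_zero hq.ne'
  have h1 : SJ q ω G j' * SJ q ω G j =
      (∑ i ∈ range q, (ω⁻¹ ^ j' * ω ^ j) ^ i) • SJ q ω G j := by
    conv_lhs => rw [SJ, Finset.sum_mul]
    rw [Finset.sum_smul]
    refine Finset.sum_congr rfl fun i _ => ?_
    rw [smul_pow, smul_mul_assoc, Gpow_mul_SJ hω hq hG, smul_smul, mul_pow]
  rw [h1]
  split_ifs with h
  · subst h
    rw [← mul_pow, inv_mul_cancel₀ hω0, one_pow]
    simp
  · rw [geom_zero, zero_smul]
    · rw [mul_pow, ← pow_mul, ← pow_mul, mul_comm j', mul_comm j, pow_mul, pow_mul, inv_pow,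
        hω.pow_eq_one, inv_one, one_pow, one_pow, one_mul]
    · intro h2
      apply h
      have h3 : ω ^ j = ω ^ j' := by
        have h4 : ω ^ j' * (ω⁻¹ ^ j' * ω ^ j) = ω ^ j' := by rw [h2, mul_one]
        rw [← mul_assoc, ← mul_pow, mul_inv_cancel₀ hω0, one_pow, one_mul] at h4
        exact h4
      exact (hω.pow_inj hj hj' h3).symm

theorem sum_SJ (hω : IsPrimitiveRoot ω q) (hq : 0 < q) :
    ∑ j ∈ range q, SJ q ω G j = (q : Ω) • (1 : A) := by
  unfold SJ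
  rw [Finset.sum_comm]
  have h1 : ∀ i ∈ range q, ∑ j ∈ range q, (ω⁻¹ ^ j • G) ^ i = if i = 0 then (q : Ω) • (1 : A) else
      0 := by
    intro i hi
    have h2 : ∑ j ∈ range q, (ω⁻¹ ^ j • G) ^ i = (∑ j ∈ range q, (ω⁻¹ ^ i) ^ j) • G ^ i := by
      rw [Finset.sum_smul]
      refine Finset.sum_congr rfl fun j _ => ?_
      rw [smul_pow, ← pow_mul, ← pow_mul, mul_comm]
    rw [h2]
    split_ifs with h
    · subst h
      simp
    · rw [geom_zero, zero_smul]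
      · rw [← pow_mul, mul_comm, pow_mul, inv_pow, hω.pow_eq_one, inv_one, one_pow]
      · intro h3
        have h4 : ω ^ i = 1 := by rw [← inv_inj, inv_one, ← inv_pow, h3]
        have h5 := hω.dvd_of_pow_eq_one i h4
        exact absurd (Nat.le_of_dvd (Nat.pos_of_ne_zero h) h5) (not_le.2 (mem_range.1 hi))
  rw [Finset.sum_congr rfl h1, Finset.sum_ite_eq' , if_pos (mem_range.2 hq)]

theorem Th_mul_Th (hω : IsPrimitiveRoot ω q) (hq : 0 < q) (hG : G ^ q = 1) {u : Ω} (hu : u ≠ 0) :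
    Th q ω G u * Th q ω G u⁻¹ = 1 := by
  have hq0 : (q : Ω) ≠ 0 := by exact_mod_cast hq.ne'
  have h1 : (∑ j ∈ range q, u ^ j • SJ q ω G j) * (∑ j ∈ range q, u⁻¹ ^ j • SJ q ω G j) =
      (q : Ω) • ((q : Ω) • (1 : A)) := by
    rw [← sum_SJ (G := G) hω hq, Finset.smul_sum, Finset.sum_mul_sum]
    refine Finset.sum_congr rfl fun j' hj' => ?_
    have h2 : ∀ j ∈ range q, u ^ j' • SJ q ω G j' * u⁻¹ ^ j • SJ q ω G j =
        if j' = j then (q : Ω) • SJ q ω G j else 0 := by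
      intro j hj
      rw [smul_mul_smul_comm, SJ_mul_SJ hω hq hG (mem_range.1 hj) (mem_range.1 hj')]
      split_ifs with h
      · subst h
        rw [← mul_pow, mul_inv_cancel₀ hu, one_pow, one_smul]
      · rw [smul_zero]
    rw [Finset.sum_congr rfl h2, Finset.sum_ite_eq, if_pos hj']
  unfold Th
  rw [smul_mul_smul_comm, h1, smul_smul, smul_smul]
  have h3 : (q : Ω)⁻¹ * (q : Ω)⁻¹ * (q : Ω) * (q : Ω) = 1 := by field_simp
  rw [h3, one_smul]

theorem G_mul_Th (hω : IsPrimitiveRoot ω q) (hq : 0 < q) (hG : G ^ q = 1) (u : Ω) :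
    G * Th q ω G u = Th q ω G (ω * u) := by
  unfold Th
  rw [mul_smul_comm, Finset.mul_sum]
  congr 1
  refine Finset.sum_congr rfl fun j _ => ?_
  rw [mul_smul_comm, G_mul_SJ hω hq hG, smul_smul, mul_pow, mul_comm]

/-- The coefficients of `Th`. -/
theorem Th_eq (u : Ω) :
    Th q ω G u = ∑ i ∈ range q, ((q : Ω)⁻¹ * ∑ j ∈ range q, (ω⁻¹ ^ i * u) ^ j) • G ^ i := by
  unfold Th SJ
  rw [Finset.smul_sum]
  simp only [Finset.smul_sum]
  rw [Finset.sum_comm]
  refine Finset.sum_congr rfl fun i _ => ?_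
  rw [Finset.mul_sum, Finset.sum_smul]
  refine Finset.sum_congr rfl fun j _ => ?_
  rw [smul_pow, smul_smul, smul_smul]
  congr 1
  rw [mul_pow, ← pow_mul, ← pow_mul, mul_comm i j]
  ring

end

section
variable {Ω : Type*} [Field Ω] [CharZero Ω]

/-- `X ^ 2 - X` integral implies `X` integral. -/
theorem int_of_sq {X : Ω} (h : IsIntegral ℤ (X ^ 2 - X)) : IsIntegral ℤ X := by
  refine IsIntegral.of_aeval_monic (p := Polynomial.X ^ 2 - Polynomial.X) ?_ ?_ ?_
  · exact Polynomial.monic_X_pow_sub (n := 2) (by simpa using Polynomial.degree_X_le)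
  · have : (Polynomial.X ^ 2 - Polynomial.X : Polynomial ℤ).natDegree = 2 := by
      compute_degree!
    rw [this]
    norm_num
  · simpa using h

/-- Integrality of the coefficients. -/
theorem int_geom {q : ℕ} (hq : 0 < q) {w s : Ω} (hw : IsIntegral ℤ w) (hs : IsIntegral ℤ s)
    (h : w ^ q = 1 + (q : Ω) ^ 2 * s) : IsIntegral ℤ ((q : Ω)⁻¹ * ∑ j ∈ range q, w ^ j) := by
  have hq0 : (q : Ω) ≠ 0 := by exact_mod_cast hq.ne'
  set A : Ω := ∑ j ∈ range q, w ^ j with hA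
  have h1 : (w - 1) * A = (q : Ω) ^ 2 * s := by
    have h2 : (w - 1) * A = w ^ q - 1 := mul_geom_sum w q
    rw [h2, h]
    ring
  have h2 : ∀ j : ℕ, w ^ j * A = A + (q : Ω) ^ 2 * s * ∑ l ∈ range j, w ^ l := by
    intro j
    induction j with
    | zero => simp
    | succ j ih =>
      rw [Finset.sum_range_succ, pow_succ]
      linear_combination w ^ j * h1 + ih
  have h3 : A * A = (q : Ω) * A + (q : Ω) ^ 2 * s * ∑ j ∈ range q, ∑ l ∈ range j, w ^ l := by
    calc A * A = ∑ j ∈ range q, w ^ j * A := by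
          rw [← Finset.sum_mul, ← hA]
      _ = ∑ j ∈ range q, (A + (q : Ω) ^ 2 * s * ∑ l ∈ range j, w ^ l) :=
          Finset.sum_congr rfl fun j _ => h2 j
      _ = _ := by
          rw [Finset.sum_add_distrib, ← Finset.mul_sum]
          simp
  apply int_of_sq
  have h4 : ((q : Ω)⁻¹ * A) ^ 2 - (q : Ω)⁻¹ * A = s * ∑ j ∈ range q, ∑ l ∈ range j, w ^ l := by
    have h5 : ((q : Ω)⁻¹ * A) ^ 2 = (q : Ω)⁻¹ * (q : Ω)⁻¹ * (A * A) := by ring
    rw [h5, h3]
    field_simp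
    ring
  rw [h4]
  exact hs.mul (IsIntegral.sum _ fun j _ => IsIntegral.sum _ fun l _ => hw.pow l)

end

end NBK
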