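import Pool.Agent.NBK.Ring

/-!
# Dual pairs of algebraic integers (normal integral bases)
-/

open Finset

namespace NBK

section
variable {Ω : Type*} [Field Ω] [CharZero Ω]

/-- An algebraic unit. -/
def IsU (u : Ω) : Prop := IsIntegral ℤ u ∧ ∃ v, IsIntegral ℤ v ∧ u * v = 1

/-- All orbits of `y` have `p`-power length. -/
def PPow (p : ℕ) (y : Ω ≃ₐ[ℚ] Ω) : Prop := ∀ z : Ω, ∃ k : ℕ, (y ^ (p ^ k)) z = z

/-- There is a unit `u` with `u ^ p ≡ 1 mod p ^ M` multiplied by `y` with a primitive `p`-th root of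
unity. -/
def EigM (p M : ℕ) (y : Ω ≃ₐ[ℚ] Ω) : Prop :=
  ∃ u ζ s : Ω, IsU u ∧ IsPrimitiveRoot ζ p ∧ y u = ζ * u ∧ IsIntegral ℤ s ∧
    u ^ p = 1 + (p : Ω) ^ M * s

/-- The hypothesis for the prime `p`. -/
def PData (p m : ℕ) (x : Ω ≃ₐ[ℚ] Ω) : Prop :=
  ∃ y : Ω ≃ₐ[ℚ] Ω, PPow p y ∧
    (∀ S : Finset Ω, ∃ e : ℕ, ¬ p ∣ e ∧ ∀ z ∈ S, y z = (x ^ e) z) ∧
    ((∀ l M : ℕ, (p ≠ 2 ∨ ∀ i : Ω, i ^ 2 = -1 → (y ^ (2 ^ l)) i = i) →
        EigM p M (y ^ (p ^ l))) ∨
      (p = 2 ∧ (∀ z, y (y z) = z) ∧ (∃ i : Ω, i ^ 2 = -1 ∧ y i = -i) ∧ ¬ 4 ∣ m))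

variable {C : Type*} [CommGroup C]

/-- A square root fixed by an involution. -/
theorem sqrt_fixed [IsAlgClosed Ω] {y : Ω ≃ₐ[ℚ] Ω} (hy : ∀ z, y (y z) = z) {z c : Ω}
    (hz : z * y z = c) : ∃ s : Ω, s ^ 2 = c ∧ y s = s := by
  obtain ⟨w, hw⟩ := IsAlgClosed.exists_pow_nat_eq z (n := 2) (by norm_num)
  refine ⟨w * y w, ?_, ?_⟩
  · rw [mul_pow, ← map_pow, hw, hz]
  · rw [map_mul, hy, mul_comm]

/-- The involution case. -/
theorem good_invol [IsAlgClosed Ω] {y : Ω ≃ₐ[ℚ] Ω} (hy : ∀ z, y (y z) = z) {i : Ω}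
    (hi : i ^ 2 = -1) (hyi : y i = -i) {g : C} (hg : g ^ 2 = 1) :
    Good (unitSub Ω C) (act C y) (gu Ω g) := by
  classical
  obtain ⟨a, ha, hya⟩ : ∃ s : Ω, s ^ 2 = 2 ∧ y s = s := by
    refine sqrt_fixed hy (z := 1 + i) ?_
    rw [map_add, map_one, hyi]
    linear_combination -hi
  obtain ⟨b, hb, hyb⟩ : ∃ s : Ω, s ^ 2 = 3 ∧ y s = s := by
    refine sqrt_fixed hy (z := 1 + i * a) ?_
    rw [map_add, map_mul, map_one, hyi, hya]
    linear_combination -(a ^ 2) * hi + ha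
  have hint_i : IsIntegral ℤ i := by
    refine IsIntegral.of_pow (n := 2) (by norm_num) ?_
    rw [hi]
    exact isIntegral_one.neg
  have h3 : IsIntegral ℤ (3 : Ω) := by
    have := isIntegral_algebraMap (R := ℤ) (A := Ω) (x := 3)
    simpa using this
  have h2' : IsIntegral ℤ (2 : Ω) := by
    have := isIntegral_algebraMap (R := ℤ) (A := Ω) (x := 2)
    simpa using this
  have hint_b : IsIntegral ℤ b := by
    refine IsIntegral.of_pow (n := 2) (by norm_num) ?_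
    rw [hb]
    exact h3
  have hu : (i * (2 + b)) * (-(i * (2 - b))) = 1 := by
    linear_combination (-(4 - b ^ 2)) * hi - hb
  have hu0 : i * (2 + b) ≠ 0 := left_ne_zero_of_mul_eq_one hu
  have huinv : (i * (2 + b))⁻¹ = -(i * (2 - b)) := inv_eq_of_mul_eq_one_right hu
  refine good_of_unit (q := 2) (by norm_num) (ω := -1) (u := i * (2 + b)) (s := -2 - b)
    (IsPrimitiveRoot.neg_one 0 (by norm_num)) y (by simp) (hint_i.mul (h2'.add hint_b)) ?_ hu0
    (h2'.neg.sub hint_b) ?_ ?_ hg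
  · rw [huinv]
    exact (hint_i.mul (h2'.sub hint_b)).neg
  · push_cast
    linear_combination ((2 + b) ^ 2) * hi - hb
  · rw [map_mul, map_add, hyi, hyb, map_ofNat]
    ring

/-- A large `p`-power of `y` fixes the roots of unity of order `p ^ k`. -/
theorem fix_root {p : ℕ} {y : Ω ≃ₐ[ℚ] Ω} (hy : PPow p y) (S : Finset Ω) :
    ∃ l : ℕ, ∀ z ∈ S, (y ^ (p ^ l)) z = z := by
  classical
  induction S using Finset.induction_on with
  | empty => exact ⟨0, by simp⟩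
  | insert a S _ ih =>
    obtain ⟨l, hl⟩ := ih
    obtain ⟨k, hk⟩ := hy a
    have hmul : ∀ (a b : ℕ) (z : Ω), (y ^ (p ^ a)) z = z → (y ^ (p ^ (a + b))) z = z := by
      intro a b z h
      rw [pow_add, pow_mul]
      have : ∀ n : ℕ, ((y ^ (p ^ a)) ^ n) z = z := by
        intro n
        induction n with
        | zero => simp
        | succ n ih => rw [pow_succ, AlgEquiv.mul_apply, h, ih]
      exact this _
    refine ⟨k + l, fun z hz => ?_⟩
    rcases Finset.mem_insert.1 hz with rfl | hz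
    · exact hmul k l z hk
    · rw [add_comm]
      exact hmul l k z (hl z hz)

/-- The `p`-part. -/
theorem good_prime [IsAlgClosed Ω] [Algebra.IsAlgebraic ℚ Ω] {p m : ℕ} (hp : p.Prime)
    {x : Ω ≃ₐ[ℚ] Ω} (hx : PData p m x) {g : C} {k : ℕ} (hgk : g ^ (p ^ k) = 1)
    (hk : p ^ k ∣ m) : Good (unitSub Ω C) (act C x) (gu Ω g) := by
  classical
  obtain ⟨y, hpp, hxy, hcase⟩ := hx
  have hguk : (gu Ω g) ^ (p ^ k) = 1 := by rw [← map_pow, hgk, map_one]
  refine Good.ppart hp (act_mem x) (act_gu x g) hguk (act_fin x) (act_agree hxy) ?_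
  rcases hcase with hE | ⟨rfl, hinv, ⟨i, hi, hyi⟩, h4⟩
  · -- the roots of unity to be fixed
    have hnz : NeZero (p ^ k) := ⟨(pow_pos hp.pos k).ne'⟩
    obtain ⟨ω₀, hω₀⟩ : ∃ ω : Ω, IsPrimitiveRoot ω (p ^ k) := by
      have : NeZero ((p ^ k : ℕ) : Ω) := ⟨by exact_mod_cast (pow_pos hp.pos k).ne'⟩
      exact HasEnoughRootsOfUnity.exists_primitiveRoot Ω (p ^ k)
    obtain ⟨i, hi⟩ := IsAlgClosed.exists_pow_nat_eq (-1 : Ω) (n := 2) (by norm_num)
    obtain ⟨l, hl⟩ := fix_root hpp {ω₀, i}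
    have hω₀l : (y ^ (p ^ l)) ω₀ = ω₀ := hl _ (by simp)
    have hil : (y ^ (p ^ l)) i = i := hl _ (by simp)
    refine Good.norm (act_mem y) (p ^ l) ?_
    rw [← map_pow]
    set y₁ := y ^ (p ^ l) with hy₁
    obtain ⟨u₁, ζ, s, ⟨hu₁, v, hv, huv⟩, hζ, hyu₁, hs, hus⟩ := hE l (2 * k) (by
      by_cases h2 : p = 2
      · right
        intro j hj
        subst h2
        have : j = i ∨ j = -i := sq_eq_sq_iff_eq_or_eq_neg.1 (by rw [hj, hi])
        rcases this with rfl | rfl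
        · exact hil
        · rw [map_neg, hil]
      · exact Or.inl h2)
    have hu₁0 : u₁ ≠ 0 := left_ne_zero_of_mul_eq_one huv
    rcases Nat.eq_zero_or_pos k with rfl | hk0
    · have hg1 : g = 1 := by simpa using hgk
      rw [hg1, map_one]
      exact Good.one
    -- the `p ^ k`-th root
    have hq : 0 < p ^ k := pow_pos hp.pos k
    obtain ⟨u, hu⟩ := IsAlgClosed.exists_pow_nat_eq (u₁ ^ p) hq
    have hu0 : u ≠ 0 := by
      rintro rfl
      rw [zero_pow hq.ne'] at hu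
      exact hu₁0 (pow_eq_zero_iff hp.ne_zero |>.1 hu.symm)
    have hfix : y₁ (u₁ ^ p) = u₁ ^ p := by
      rw [map_pow, hyu₁, mul_pow, hζ.pow_eq_one, one_mul]
    set ω : Ω := y₁ u / u with hω
    have hyu : y₁ u = ω * u := by rw [hω, div_mul_cancel₀ _ hu0]
    have hωq : ω ^ (p ^ k) = 1 := by
      rw [hω, div_pow, ← map_pow, hu, hfix, div_self (pow_ne_zero _ hu₁0)]
    have hyω : y₁ ω = ω := by
      obtain ⟨j, -, hj⟩ := hω₀.eq_pow_of_pow_eq_one hωq
      rw [← hj, map_pow, hω₀l]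
    have hprim : IsPrimitiveRoot ω (p ^ k) := by
      obtain ⟨n, rfl⟩ : ∃ n, k = n + 1 := ⟨k - 1, by omega⟩
      have : Fact p.Prime := ⟨hp⟩
      rw [IsPrimitiveRoot.iff_orderOf]
      refine orderOf_eq_prime_pow ?_ hωq
      -- `ω ^ (p ^ n) = ζ`
      set w : Ω := u ^ (p ^ n) with hw
      have hw0 : w ≠ 0 := pow_ne_zero _ hu0
      have hwp : w ^ p = u₁ ^ p := by rw [hw, ← pow_mul, ← pow_succ, hu]
      have hξ : (w / u₁) ^ p = 1 := by rw [div_pow, hwp, div_self (pow_ne_zero _ hu₁0)]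
      have hyξ : y₁ (w / u₁) = w / u₁ := by
        have h1 : (w / u₁) ^ (p ^ (n + 1)) = 1 := by rw [pow_succ', pow_mul, hξ, one_pow]
        obtain ⟨j, -, hj⟩ := hω₀.eq_pow_of_pow_eq_one h1
        rw [← hj, map_pow, hω₀l]
      have h1 : y₁ w = ζ * w := by
        have h2 : w = (w / u₁) * u₁ := by rw [div_mul_cancel₀ _ hu₁0]
        calc y₁ w = y₁ ((w / u₁) * u₁) := by rw [← h2]
          _ = (w / u₁) * (ζ * u₁) := by rw [map_mul, hyξ, hyu₁]
          _ = ζ * w := by field_simp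
      have h2 : y₁ w = ω ^ (p ^ n) * w := by rw [hw, map_pow, hyu, mul_pow]
      have h3 : ω ^ (p ^ n) = ζ := mul_right_cancel₀ hw0 (h2.symm.trans h1)
      rw [h3]
      exact hζ.ne_one hp.one_lt
    have hu_int : IsIntegral ℤ u := by
      refine IsIntegral.of_pow hq ?_
      rw [hu]
      exact hu₁.pow p
    have hu_int' : IsIntegral ℤ u⁻¹ := by
      refine IsIntegral.of_pow hq ?_
      rw [inv_pow, hu, ← inv_pow, inv_eq_of_mul_eq_one_right huv]
      exact hv.pow p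
    refine good_of_unit hq hprim y₁ hyω hu_int hu_int' hu0 hs ?_ hyu hgk
    rw [hu, hus]
    push_cast
    ring
  · -- the involution
    refine good_invol hinv hi hyi ?_
    rcases Nat.lt_or_ge k 2 with h | h
    · interval_cases k
      · have hg1 : g = 1 := by simpa using hgk
        rw [hg1, one_pow]
      · simpa using hgk
    · exact absurd ((pow_dvd_pow 2 h).trans hk) h4

end

end NBK
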