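import Pool.Agent.NBK.Grp
import Pool.Agent.NBK.Idem

/-!
# Units of the group ring of the algebraic integers
-/

open Finset

namespace NBK

variable {Ω : Type*} [Field Ω] [CharZero Ω] {C : Type*} [CommGroup C]

/-- The coefficients are algebraic integers. -/
noncomputable def intSub (Ω C : Type*) [Field Ω] [CharZero Ω] [CommGroup C] : Subring (MonoidAlgebra Ω C) where
  carrier := {a | ∀ c, IsIntegral ℤ (a.coeff c)}
  mul_mem' := by
    classical
    intro a b ha hb c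
    rw [MonoidAlgebra.coeff_mul_apply_left]
    exact IsIntegral.sum _ fun h _ => (ha h).mul (hb _)
  one_mem' := by
    classical
    intro c
    rw [MonoidAlgebra.one_def, MonoidAlgebra.coeff_single, Finsupp.single_apply]
    split_ifs
    · exact isIntegral_one
    · exact isIntegral_zero
  add_mem' := by
    intro a b ha hb c
    rw [MonoidAlgebra.coeff_add]
    exact (ha c).add (hb c)
  zero_mem' := by
    intro c
    rw [MonoidAlgebra.coeff_zero]
    exact isIntegral_zero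
  neg_mem' := by
    intro a ha c
    have h1 : (-a).coeff c = -(a.coeff c) := by
      rw [← neg_one_smul Ω a, MonoidAlgebra.coeff_smul_apply]
      simp
    rw [h1]
    exact (ha c).neg

theorem mem_intSub {a : MonoidAlgebra Ω C} : a ∈ intSub Ω C ↔ ∀ c, IsIntegral ℤ (a.coeff c) :=
  Iff.rfl

theorem single_mem (c : C) {r : Ω} (hr : IsIntegral ℤ r) :
    MonoidAlgebra.single c r ∈ intSub Ω C := by
  classical
  intro d
  rw [MonoidAlgebra.coeff_single, Finsupp.single_apply]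
  split_ifs
  · exact hr
  · exact isIntegral_zero

/-- The units of the group ring of the integers. -/
noncomputable def unitSub (Ω C : Type*) [Field Ω] [CharZero Ω] [CommGroup C] : Subgroup (MonoidAlgebra Ω C)ˣ :=
  (intSub Ω C).toSubmonoid.units

theorem mem_unitSub {u : (MonoidAlgebra Ω C)ˣ} :
    u ∈ unitSub Ω C ↔ (u : MonoidAlgebra Ω C) ∈ intSub Ω C ∧
      ((u⁻¹ : (MonoidAlgebra Ω C)ˣ) : MonoidAlgebra Ω C) ∈ intSub Ω C :=
  Submonoid.mem_units_iff _ _

/-- The action on the group ring. -/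
noncomputable def act (C : Type*) [CommGroup C] : (Ω ≃ₐ[ℚ] Ω) →* MulAut (MonoidAlgebra Ω C)ˣ where
  toFun x := Units.mapEquiv (MonoidAlgebra.mapRingEquiv C x.toRingEquiv).toMulEquiv
  map_one' := by
    ext u c
    simp
  map_mul' x y := by
    ext u c
    simp

theorem act_coeff (x : Ω ≃ₐ[ℚ] Ω) (u : (MonoidAlgebra Ω C)ˣ) (c : C) :
    ((act C x u : (MonoidAlgebra Ω C)ˣ) : MonoidAlgebra Ω C).coeff c =
      x ((u : MonoidAlgebra Ω C).coeff c) := by
  simp [act]

theorem act_mem (x : Ω ≃ₐ[ℚ] Ω) : ∀ u ∈ unitSub Ω C, act C x u ∈ unitSub Ω C := by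
  intro u hu
  rw [mem_unitSub] at hu ⊢
  refine ⟨fun c => ?_, fun c => ?_⟩
  · rw [act_coeff]
    exact (hu.1 c).map (x : Ω →ₐ[ℚ] Ω)
  · rw [← map_inv, act_coeff]
    exact (hu.2 c).map (x : Ω →ₐ[ℚ] Ω)

/-- The group element as a unit. -/
noncomputable def gu (Ω : Type*) [Field Ω] {C : Type*} [CommGroup C] :
    C →* (MonoidAlgebra Ω C)ˣ := (MonoidAlgebra.of Ω C).toHomUnits

theorem gu_coe (g : C) : ((gu Ω g : (MonoidAlgebra Ω C)ˣ) : MonoidAlgebra Ω C) =
    MonoidAlgebra.single g 1 := rfl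

theorem act_gu (x : Ω ≃ₐ[ℚ] Ω) (g : C) : act C x (gu Ω g) = gu Ω g := by
  classical
  ext c
  rw [act_coeff, gu_coe, MonoidAlgebra.coeff_single, Finsupp.single_apply]
  split_ifs
  · exact map_one x
  · exact map_zero x

/-- The group ring elements over a finite orbit. -/
theorem act_fin [Algebra.IsAlgebraic ℚ Ω] (x : Ω ≃ₐ[ℚ] Ω) (u : (MonoidAlgebra Ω C)ˣ) :
    ∃ N : ℕ, 0 < N ∧ ((act C x) ^ N) u = u := by
  classical
  -- every element has a finite orbit
  have h1 : ∀ z : Ω, ∃ N : ℕ, 0 < N ∧ (x ^ N) z = z := by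
    intro z
    have hz : IsIntegral ℚ z := Algebra.IsIntegral.isIntegral z
    have hfin : Set.Finite {w : Ω | Polynomial.aeval w (minpoly ℚ z) = 0} := by
      have : {w : Ω | Polynomial.aeval w (minpoly ℚ z) = 0} = (minpoly ℚ z).rootSet Ω := by
        ext w
        rw [Polynomial.mem_rootSet]
        exact ⟨fun h => ⟨minpoly.ne_zero hz, h⟩, fun h => h.2⟩
      rw [this]
      exact Polynomial.rootSet_finite _ _
    have hmaps : ∀ n : ℕ, (x ^ n) z ∈ {w : Ω | Polynomial.aeval w (minpoly ℚ z) = 0} := by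
      intro n
      show Polynomial.aeval ((x ^ n) z) (minpoly ℚ z) = 0
      have h2 := Polynomial.aeval_algHom_apply ((x ^ n : Ω ≃ₐ[ℚ] Ω) : Ω →ₐ[ℚ] Ω) z (minpoly ℚ z)
      rw [minpoly.aeval, map_zero] at h2
      exact h2
    obtain ⟨a, b, hab, h2⟩ : ∃ a b : ℕ, a < b ∧ (x ^ a) z = (x ^ b) z := by
      have h3 : ¬ Function.Injective (fun n : ℕ => (x ^ n) z) := by
        intro hinj
        exact Set.infinite_of_injective_forall_mem hinj hmaps hfin
      rw [Function.Injective] at h3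
      push Not at h3
      obtain ⟨a, b, h4, h5⟩ := h3
      rcases lt_or_gt_of_ne h5 with h6 | h6
      · exact ⟨a, b, h6, h4⟩
      · exact ⟨b, a, h6, h4.symm⟩
    refine ⟨b - a, by omega, ?_⟩
    have h3 : (x ^ a) ((x ^ (b - a)) z) = (x ^ a) z := by
      rw [← AlgEquiv.mul_apply, ← pow_add, Nat.add_sub_cancel' hab.le, ← h2]
    exact (x ^ a).injective h3
  choose N hN hxN using h1
  have h2 : ∀ (z : Ω) (n : ℕ), N z ∣ n → (x ^ n) z = z := by
    rintro z n ⟨k, rfl⟩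
    rw [pow_mul]
    induction k with
    | zero => simp
    | succ k ih => rw [pow_succ, AlgEquiv.mul_apply, hxN, ih]
  refine ⟨∏ c ∈ (u : MonoidAlgebra Ω C).coeff.support, N ((u : MonoidAlgebra Ω C).coeff c),
    Finset.prod_pos fun c _ => hN _, ?_⟩
  rw [← map_pow]
  ext c
  rw [act_coeff]
  by_cases hc : c ∈ (u : MonoidAlgebra Ω C).coeff.support
  · exact h2 _ _ (Finset.dvd_prod_of_mem _ hc)
  · rw [Finsupp.notMem_support_iff.1 hc, map_zero]

/-- If `y` agrees with powers of `x` on finite sets, so it does on finite sets of units. -/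
theorem act_agree {p : ℕ} {x y : Ω ≃ₐ[ℚ] Ω}
    (h : ∀ S : Finset Ω, ∃ e : ℕ, ¬ p ∣ e ∧ ∀ z ∈ S, y z = (x ^ e) z)
    (S : Finset (MonoidAlgebra Ω C)ˣ) :
    ∃ e : ℕ, ¬ p ∣ e ∧ ∀ u ∈ S, act C y u = ((act C x) ^ e) u := by
  classical
  obtain ⟨e, he, h1⟩ := h (S.biUnion fun u => (u : MonoidAlgebra Ω C).coeff.support.image
    fun c => (u : MonoidAlgebra Ω C).coeff c)
  refine ⟨e, he, fun u hu => ?_⟩
  rw [← map_pow]
  ext c
  rw [act_coeff, act_coeff]
  by_cases hc : c ∈ (u : MonoidAlgebra Ω C).coeff.support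
  · exact h1 _ (Finset.mem_biUnion.2 ⟨u, hu, Finset.mem_image.2 ⟨c, hc, rfl⟩⟩)
  · rw [Finsupp.notMem_support_iff.1 hc, map_zero, map_zero]

/-- A unit `u` with `y u = ω u`, `u ^ q = 1 + q ^ 2 s` gives a unit of the group ring. -/
theorem good_of_unit {q : ℕ} (hq : 0 < q) {ω u s : Ω} (hω : IsPrimitiveRoot ω q)
    (y : Ω ≃ₐ[ℚ] Ω) (hyω : y ω = ω) (hu : IsIntegral ℤ u) (hu' : IsIntegral ℤ u⁻¹) (hu0 : u ≠ 0)
    (hs : IsIntegral ℤ s) (h : u ^ q = 1 + (q : Ω) ^ 2 * s) (hyu : y u = ω * u) {g : C}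
    (hg : g ^ q = 1) : Good (unitSub Ω C) (act C y) (gu Ω g) := by
  classical
  set G : MonoidAlgebra Ω C := MonoidAlgebra.single g 1 with hG
  have hGq : G ^ q = 1 := by
    rw [hG, MonoidAlgebra.single_pow, hg, one_pow, MonoidAlgebra.one_def]
  have h0 : (q : Ω) ≠ 0 := by exact_mod_cast hq.ne'
  have hω1 : IsIntegral ℤ ω := hω.isIntegral hq
  have hω2 : IsIntegral ℤ ω⁻¹ := hω.inv.isIntegral hq
  have hGi : ∀ i : ℕ, G ^ i ∈ intSub Ω C := fun i =>
    (intSub Ω C).pow_mem (single_mem g isIntegral_one) i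
  have hsm : ∀ (r : Ω) (a : MonoidAlgebra Ω C), IsIntegral ℤ r → a ∈ intSub Ω C →
      r • a ∈ intSub Ω C := by
    intro r a hr ha c
    rw [MonoidAlgebra.coeff_smul_apply, smul_eq_mul]
    exact hr.mul (ha c)
  have hint : ∀ v t : Ω, IsIntegral ℤ v → IsIntegral ℤ t → v ^ q = 1 + (q : Ω) ^ 2 * t →
      Th q ω G v ∈ intSub Ω C := by
    intro v t hv ht hvt
    rw [Th_eq]
    refine (intSub Ω C).sum_mem fun i _ => hsm _ _ ?_ (hGi i)
    refine int_geom hq ((hω2.pow i).mul hv) ht ?_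
    rw [mul_pow, ← pow_mul, mul_comm i q, pow_mul, inv_pow, hω.pow_eq_one, inv_one, one_pow,
      one_mul, hvt]
  have h1 : Th q ω G u ∈ intSub Ω C := hint u s hu hs h
  have h2 : Th q ω G u⁻¹ ∈ intSub Ω C := by
    refine hint u⁻¹ (-s * u⁻¹ ^ q) hu' (hs.neg.mul (hu'.pow q)) ?_
    have h3 : u⁻¹ ^ q * u ^ q = 1 := by rw [← mul_pow, inv_mul_cancel₀ hu0, one_pow]
    have h4 : u⁻¹ ^ q * (1 + (q : Ω) ^ 2 * s) = 1 := by rw [← h, h3]
    linear_combination h4
  have h3 : Th q ω G u * Th q ω G u⁻¹ = 1 := Th_mul_Th hω hq hGq hu0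
  let U : (MonoidAlgebra Ω C)ˣ := ⟨Th q ω G u, Th q ω G u⁻¹, h3, by rw [mul_comm]; exact h3⟩
  refine ⟨U, mem_unitSub.2 ⟨h1, h2⟩, ?_⟩
  have h4 : MonoidAlgebra.mapRingEquiv C y.toRingEquiv (Th q ω G u) = Th q ω G (ω * u) := by
    have hGf : MonoidAlgebra.mapRingEquiv C y.toRingEquiv G = G := by
      rw [hG, MonoidAlgebra.mapRingEquiv_single]
      congr 1
      exact map_one y
    have hsmul : ∀ (r : Ω) (a : MonoidAlgebra Ω C),
        MonoidAlgebra.mapRingEquiv C y.toRingEquiv (r • a) =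
          y r • MonoidAlgebra.mapRingEquiv C y.toRingEquiv a := by
      intro r a
      ext c
      rw [MonoidAlgebra.coeff_mapRingEquiv, MonoidAlgebra.coeff_smul_apply,
        MonoidAlgebra.coeff_smul_apply, MonoidAlgebra.coeff_mapRingEquiv, smul_eq_mul, smul_eq_mul]
      exact map_mul y _ _
    rw [Th_eq, Th_eq, map_sum]
    refine Finset.sum_congr rfl fun i _ => ?_
    rw [hsmul, map_pow, hGf]
    congr 1
    simp [hyω, hyu]
  ext c
  have h5 := congrArg (fun a : MonoidAlgebra Ω C => a.coeff c) h4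
  have h6 := congrArg (fun a : MonoidAlgebra Ω C => a.coeff c) (G_mul_Th (G := G) hω hq hGq u)
  show ((act C y U : (MonoidAlgebra Ω C)ˣ) : MonoidAlgebra Ω C).coeff c =
    ((gu Ω g * U : (MonoidAlgebra Ω C)ˣ) : MonoidAlgebra Ω C).coeff c
  rw [act_coeff, Units.val_mul, gu_coe]
  show y ((Th q ω G u).coeff c) = (G * Th q ω G u).coeff c
  have h7 : y ((Th q ω G u).coeff c) =
      (MonoidAlgebra.mapRingEquiv C y.toRingEquiv (Th q ω G u)).coeff c := by
    rw [MonoidAlgebra.coeff_mapRingEquiv]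
    rfl
  rw [h7]
  exact h5.trans h6.symm

end NBK
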